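import Pool.Agent.Helper30.DL.GoalsD

/-! Packet CONV (MP_b4564f_an, helper30), proved by helper46: convergence in the box. -/

set_option autoImplicit false

open Complex (I)
open Filter Topology Finset

namespace Pool.Agent.Helper46.DL

open Pool.Agent.Helper30 Pool.Agent.Helper30.DL

lemma lyap46 {V z : ℕ → ℝ} {c C : ℝ} (hc : 0 < c) (N : ℕ)
    (hdec : ∀ n, N ≤ n → V (n + 1) + c * (z n) ^ 4 ≤ V n) (hlow : ∀ n, N ≤ n → C ≤ V n) :
    Tendsto z atTop (𝓝 0) := by
  have hanti : Antitone (fun n => V (n + N)) := by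
    apply antitone_nat_of_succ_le
    intro n
    have h1 := hdec (n + N) (Nat.le_add_left _ _)
    have h2 : 0 ≤ c * (z (n + N)) ^ 4 := by positivity
    have h3 : n + 1 + N = n + N + 1 := by ring
    simp only [h3]
    linarith
  have hbdd : BddBelow (Set.range (fun n => V (n + N))) := by
    refine ⟨C, ?_⟩
    rintro _ ⟨n, rfl⟩
    exact hlow _ (Nat.le_add_left _ _)
  have hlim := tendsto_atTop_ciInf hanti hbdd
  set L := ⨅ n, V (n + N)
  have hlim2 : Tendsto (fun n => V (n + 1 + N)) atTop (𝓝 L) :=
    (tendsto_add_atTop_iff_nat 1).mpr hlim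
  have hdiff : Tendsto (fun n => V (n + N) - V (n + 1 + N)) atTop (𝓝 0) := by
    simpa using hlim.sub hlim2
  have hz4 : Tendsto (fun n => (z (n + N)) ^ 4) atTop (𝓝 0) := by
    have hd2 : Tendsto (fun n => (V (n + N) - V (n + 1 + N)) / c) atTop (𝓝 0) := by
      simpa using hdiff.div_const c
    refine squeeze_zero (fun n => by positivity) (fun n => ?_) hd2
    rw [le_div_iff₀ hc]
    have h1 := hdec (n + N) (Nat.le_add_left _ _)
    have h3 : n + 1 + N = n + N + 1 := by ring
    simp only [h3]
    linarith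
  rw [← tendsto_add_atTop_iff_nat N]
  rw [Metric.tendsto_atTop] at hz4 ⊢
  intro ε hε
  obtain ⟨M, hM⟩ := hz4 (ε ^ 4) (by positivity)
  refine ⟨M, fun n hn => ?_⟩
  have := hM n hn
  rw [Real.dist_eq, sub_zero] at this ⊢
  rw [abs_pow] at this
  exact lt_of_pow_lt_pow_left₀ 4 hε.le this

lemma FF_up {p q v M : ℝ} (hp : 0 < p) (hpq : p ≤ q) (hq : q < 1) (hv : v ≤ M) (hM : 0 ≤ M) :
    PL.FF p v ≤ PL.FF q M := by
  unfold PL.FF
  apply Real.log_le_log (PL.den_pos hp (by linarith) v)
  have h1 := Real.exp_le_exp.2 hv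
  have h2 := Real.one_le_exp hM
  nlinarith [mul_le_mul_of_nonneg_left h1 hp.le, mul_nonneg (sub_nonneg.2 hpq) (sub_nonneg.2 h2)]

lemma FF_dn {p q v m : ℝ} (hp : 0 < p) (hpq : p ≤ q) (hq : q < 1) (hv : -m ≤ v) (hm : 0 ≤ m) :
    PL.FF q (-m) ≤ PL.FF p v := by
  unfold PL.FF
  apply Real.log_le_log (PL.den_pos (by linarith) hq (-m))
  have h1 := Real.exp_le_exp.2 hv
  have h2 : Real.exp (-m) ≤ 1 := Real.exp_le_one_iff.2 (by linarith)
  nlinarith [mul_le_mul_of_nonneg_left h1 hp.le, mul_nonneg (sub_nonneg.2 hpq) (sub_nonneg.2 h2)]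

lemma continuous_Zf (k : ℕ) (t : ℝ) : Continuous (fun w : ℕ → ℝ => Zf k t w) := by
  simp only [Zf]
  fun_prop

lemma continuous_Wf (k : ℕ) (t : ℝ) : Continuous (fun w : ℕ → ℝ => Wf k t w) := by
  simp only [Wf]
  fun_prop

lemma continuous_zt (k : ℕ) (t : ℝ) (j : ℕ) : Continuous (fun w : ℕ → ℝ => zt k t w j) := by
  have h := continuous_Zf k t
  simp only [zt, Xf]
  fun_prop

lemma continuous_dt (k : ℕ) (t : ℝ) (j : ℕ) : Continuous (fun w : ℕ → ℝ => dt k t w j) := by
  have h := continuous_zt k t j
  have h' := continuous_zt k t (j + 1)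
  simp only [dt]
  exact h.sub h'

lemma continuous_Pf (P : Pm) (t : ℝ) : Continuous (fun Z : ℂ => Pf P t Z) := by
  have h : Continuous (fun Z : ℂ => cj Z) := Complex.continuous_conj
  simp only [Pf]
  fun_prop

lemma continuous_Vf (P : Pm) (k : ℕ) (t e : ℝ) : Continuous (fun w : ℕ → ℝ => Vf P k t e w) := by
  have hZ := continuous_Zf k t
  have hW := continuous_Wf k t
  have hP : Continuous (fun w : ℕ → ℝ => Pf P t (Zf k t w)) := (continuous_Pf P t).comp hZ
  have hz := continuous_zt k t
  have hd := continuous_dt k t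
  have hN : Continuous (fun w : ℕ → ℝ => Complex.normSq (Zf k t w)) :=
    Complex.continuous_normSq.comp hZ
  have hQ : Continuous (fun w : ℕ → ℝ => Qf P k t w) := by
    simp only [Qf]
    refine Continuous.add ?_ ?_
    · refine Continuous.mul continuous_const ?_
      exact continuous_finsetSum _ (fun i _ => (hz (i + 1)).pow 2)
    · refine Continuous.mul continuous_const ?_
      exact continuous_finsetSum _ (fun i _ => continuous_const.mul ((hd i).pow 2))
  simp only [Vf]
  fun_prop

theorem conv (hCst : CstStmt) (hNlb : NlbStmt) : ConvStmt := by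
  intro k P em m M p X hk hm hM hem hcell hp1 hp2 hX hbd
  obtain ⟨hr1, hc1, hcg, hpos⟩ := hcell
  set t := tau k with ht
  obtain ⟨ht0, ht14, -⟩ := hCst k hk t ht
  have hpc : pc k = pp t := by
    unfold pc pp
    rw [ht]
    rfl
  have htpi : t < Real.pi := by
    have := Real.pi_pos
    linarith
  have hpp0 : 0 < pp t := by
    unfold pp
    have := Real.sin_pos_of_pos_of_lt_pi ht0 htpi
    linarith
  have hpp1 : pp t < 1 := by
    unfold pp
    have h1 := Real.sin_lt ht0
    have h2 := Real.pi_lt_d2
    linarith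
  rw [hpc] at hp1 hp2
  have hp0 : 0 < p := lt_of_lt_of_le (mul_pos (by linarith) hpp0) hp1
  have hplt1 : p < 1 := by linarith
  have hth : 0 < th t := by unfold th; linarith
  set e := 1 - p / pp t with he
  have he0 : 0 ≤ e := by
    rw [he, sub_nonneg, div_le_one hpp0]
    exact hp2
  have hee : e ≤ em := by
    have h1 : 1 - em ≤ p / pp t := by
      rw [le_div_iff₀ hpp0]
      exact hp1
    rw [he]
    linarith
  have hpe : (1 - e) * pp t = p := by
    rw [he]
    field_simp
    ring
  -- the logarithms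
  set y : ℕ → ℝ := fun n => Real.log (X n) with hy
  have hyrec : ∀ n, y (n + k + 1) = y (n + k) - PL.FF p (y n) := by
    intro n
    have h1 := hX.2 n
    have hposd : 0 < 1 - p + p * X n := by nlinarith [mul_pos hp0 (hX.1 n)]
    have h2 : Real.log (X (n + k)) = Real.log (X (n + k + 1)) + Real.log (1 - p + p * X n) := by
      rw [← h1, Real.log_mul (hX.1 _).ne' hposd.ne']
    simp only [hy, PL.FF, Real.exp_log (hX.1 n)]
    linarith
  obtain ⟨N, hN⟩ := eventually_atTop.1 hbd
  -- the windows
  set W : ℕ → ℕ → ℝ := fun n j => y (n + k - j) with hW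
  have hgf : ∀ a, pp t * a + th t * gf t e a = PL.FF p a := by
    intro a
    unfold gf
    rw [hpe]
    field_simp
    ring
  have hnx : ∀ n, W (n + 1) = nx k (pp t) (th t * gf t e (y n)) (W n) := by
    intro n
    funext j
    cases j with
    | zero =>
      simp only [hW, nx, Nat.sub_zero, Nat.add_sub_cancel]
      have h1 := hyrec n
      have h2 := hgf (y n)
      have h3 : n + 1 + k = n + k + 1 := by ring
      rw [h3, h1]
      linarith
    | succ j =>
      simp only [hW, nx]
      congr 1
      omega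
  have hwk : ∀ n, W n k = y n := by
    intro n
    simp only [hW, Nat.add_sub_cancel]
  have hdec : ∀ n, N + k ≤ n → Vf P k t e (W (n + 1)) + th t / 10000000000 * (y n) ^ 4
      ≤ Vf P k t e (W n) := by
    intro n hn
    have h1 := hNlb k hk t ht P e (gf t e (y n)) (W n) hr1 hc1 hcg
    rw [← hnx n] at h1
    have h2 := hpos e he0 hee (W n) ?_ ?_
    · rw [hwk n] at h1 h2
      have h3 : th t / 10000000000 * (y n) ^ 4 ≤
          th t / 10000000000 * (10000000000 * Phi (mkCf P t) e (y n) (Xf k t (W n)).re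
            (Xf k t (W n)).im (zt k t (W n) k) (gf t e (y n))) :=
        mul_le_mul_of_nonneg_left h2 (by positivity)
      have h4 : th t / 10000000000 * (10000000000 * Phi (mkCf P t) e (y n) (Xf k t (W n)).re
            (Xf k t (W n)).im (zt k t (W n) k) (gf t e (y n))) =
          th t * Phi (mkCf P t) e (y n) (Xf k t (W n)).re
            (Xf k t (W n)).im (zt k t (W n) k) (gf t e (y n)) := by
        field_simp
      rw [h4] at h3
      linarith
    · intro j hj
      exact hN (n + k - j) (by omega)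
    · intro j hj
      have h5 := hyrec (n - j - 1)
      have h6 : n - j - 1 + k + 1 = n + k - j := by omega
      have h7 : n - j - 1 + k = n + k - (j + 1) := by omega
      rw [h6, h7] at h5
      have h8 : W n j - W n (j + 1) = -PL.FF p (y (n - j - 1)) := by
        simp only [hW]
        rw [h5]
        ring
      rw [h8]
      have h9 := hN (n - j - 1) (by omega)
      constructor
      · have := FF_up hp0 hp2 hpp1 h9.2 hM
        simp only [hy]
        linarith
      · have := FF_dn hp0 hp2 hpp1 h9.1 hm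
        simp only [hy]
        linarith
  -- lower bound
  obtain ⟨R, hR⟩ : ∃ R : ℝ, ∀ n, |y n| ≤ R := by
    refine ⟨max m M + ∑ i ∈ range N, |y i|, fun n => ?_⟩
    rcases lt_or_ge n N with h | h
    · have h1 := Finset.single_le_sum (f := fun i => |y i|) (s := range N)
        (fun i _ => abs_nonneg _) (mem_range.2 h)
      have h2 : 0 ≤ max m M := le_max_of_le_left hm
      have h1' : |y n| ≤ ∑ i ∈ range N, |y i| := h1
      linarith
    · have h1 := hN n h
      have h2 : 0 ≤ ∑ i ∈ range N, |y i| := Finset.sum_nonneg (fun i _ => abs_nonneg _)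
      have h3 : |y n| ≤ max m M := by
        rw [abs_le]
        constructor
        · have := le_max_left m M
          simp only [hy]
          linarith
        · exact h1.2.trans (le_max_right _ _)
      linarith
  have hcomp : IsCompact (Set.pi Set.univ (fun _ : ℕ => Set.Icc (-R) R)) :=
    isCompact_univ_pi (fun _ => isCompact_Icc)
  obtain ⟨C, hC⟩ := (hcomp.image (continuous_Vf P k t e)).bddBelow
  have hlow : ∀ n, N + k ≤ n → C ≤ Vf P k t e (W n) := by
    intro n _
    apply hC
    refine ⟨W n, ?_, rfl⟩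
    intro j _
    exact abs_le.1 (hR _)
  have hy0 : Tendsto y atTop (𝓝 0) :=
    lyap46 (V := fun n => Vf P k t e (W n)) (c := th t / 10000000000) (by positivity) (N + k)
      hdec hlow
  have h10 : Tendsto (fun n => Real.exp (y n)) atTop (𝓝 (Real.exp 0)) :=
    (Real.continuous_exp.tendsto 0).comp hy0
  rw [Real.exp_zero] at h10
  refine h10.congr (fun n => ?_)
  simp only [hy]
  exact Real.exp_log (hX.1 n)

end Pool.Agent.Helper46.DL
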